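import Pool.Agent.H.MP_b029fa_co.B

set_option autoImplicit false

namespace Pool.Agent.H.MP_429aeb_pr

open Matrix Finset

variable {m n : ℕ}

/-- Gram operator on the column side -/
def gram (A : Fin m → Fin n → ℝ) (z : Fin n → ℝ) : Fin n → ℝ := ∑ k, (A k ⬝ᵥ z) • A k

/-- close pair of positive singular values seen from row `i` -/
def PP (i : Fin m) (η R δ : ℝ) (A : Fin m → Fin n → ℝ) : Prop :=
  ∃ (l : ℝ) (z t : Fin n → ℝ), (η ≤ l ∧ l ≤ R) ∧ z ⬝ᵥ z = 1 ∧ t ⬝ᵥ t = 1 ∧ gram A z = l • z ∧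
    l ≤ m * (A i ⬝ᵥ z) ^ 2 ∧ A i ⬝ᵥ t = 0 ∧
    (gram A t - l • t) ⬝ᵥ (gram A t - l • t) ≤ δ ^ 2 * l ^ 2

/-- row `i` depends on the others -/
def QQ (i : Fin m) (A : Fin m → Fin n → ℝ) : Prop :=
  ∃ c : Fin m → ℝ, c ⬝ᵥ c = 1 ∧ ∑ k, c k • A k = 0 ∧ 1 ≤ m * c i ^ 2

lemma big_coord {k : ℕ} (u : Fin k → ℝ) (hu : u ⬝ᵥ u = 1) : ∃ i, 1 ≤ k * u i ^ 2 := by
  by_contra h
  push Not at h
  have hk : (univ : Finset (Fin k)).Nonempty := by
    rw [Finset.univ_nonempty_iff]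
    by_contra he
    rw [not_nonempty_iff] at he
    simp [dotProduct] at hu
  have := Finset.sum_lt_sum_of_nonempty hk (fun i _ => h i)
  rw [← Finset.mul_sum] at this
  simp only [dotProduct, ← sq] at hu
  simp [hu] at this

lemma cs {k : ℕ} (u v : Fin k → ℝ) : (u ⬝ᵥ v) ^ 2 ≤ (u ⬝ᵥ u) * (v ⬝ᵥ v) := by
  have := Finset.sum_mul_sq_le_sq_mul_sq univ u v
  simpa only [dotProduct, ← sq] using this

lemma gram_eq (A : Matrix (Fin m) (Fin n) ℝ) (z : Fin n → ℝ) : gram A z = Aᵀ *ᵥ (A *ᵥ z) := by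
  funext l
  simp only [gram, Finset.sum_apply, Pi.smul_apply, smul_eq_mul, Matrix.mulVec, dotProduct,
    transpose_apply]
  exact Finset.sum_congr rfl fun k _ => by ring

lemma struct (A : Matrix (Fin m) (Fin n) ℝ) (hA : (A * Aᴴ).IsHermitian) (j k : Fin m) (hjk : j ≠ k)
    (x : ℝ) (hx : 1 < x) (h1 : √(hA.eigenvalues k) ≤ √(hA.eigenvalues j))
    (h2 : √(hA.eigenvalues j) - √(hA.eigenvalues k) ≤ √(hA.eigenvalues k) / x) :
    ∃ i, QQ i A ∨ ∃ q : ℕ, PP i (1 / ((q : ℝ) + 1)) (∑ a, ∑ b, A a b ^ 2) (3 / x) A := by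
  have hT : Aᴴ = Aᵀ := conjTranspose_eq_transpose_of_trivial A
  let u : Fin m → Fin m → ℝ := fun a => hA.eigenvectorBasis a
  have hu : ∀ a, A *ᵥ (Aᵀ *ᵥ u a) = hA.eigenvalues a • u a := by
    intro a
    rw [mulVec_mulVec, ← hT]
    exact hA.mulVec_eigenvectorBasis a
  have ho : ∀ a b, u a ⬝ᵥ u b = if a = b then 1 else 0 := by
    intro a b
    have := orthonormal_iff_ite.1 hA.eigenvectorBasis.orthonormal b a
    rw [EuclideanSpace.inner_eq_star_dotProduct] at this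
    simpa [eq_comm, u] using this
  have hw : ∀ a b, (Aᵀ *ᵥ u a) ⬝ᵥ (Aᵀ *ᵥ u b) = if a = b then hA.eigenvalues a else 0 := by
    intro a b
    rw [dotProduct_mulVec, vecMul_transpose, hu, smul_dotProduct, ho]
    split_ifs <;> simp
  have hpos : ∀ a, 0 ≤ hA.eigenvalues a := by
    intro a
    have := hw a a
    rw [if_pos rfl] at this
    rw [← this]
    exact Finset.sum_nonneg fun _ _ => mul_self_nonneg _
  obtain ⟨i, hi⟩ := big_coord (u k) (by simp [ho])
  refine ⟨i, ?_⟩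
  rcases (hpos k).eq_or_lt with h0 | h0
  · left
    refine ⟨u k, by simp [ho], ?_, hi⟩
    have := hw k k
    rw [if_pos rfl, ← h0, dotProduct_self_eq_zero] at this
    rw [← this]
    funext l
    simp [Matrix.mulVec, dotProduct, mul_comm]
  right
  obtain ⟨q, hq⟩ := exists_nat_one_div_lt h0
  set s := √(hA.eigenvalues k) with hs
  set s' := √(hA.eigenvalues j) with hs'
  have hs0 : 0 < s := Real.sqrt_pos.2 h0
  have hs0' : 0 < s' := lt_of_lt_of_le hs0 h1
  have e1 : s ^ 2 = hA.eigenvalues k := Real.sq_sqrt (hpos k)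
  have e2 : s' ^ 2 = hA.eigenvalues j := Real.sq_sqrt (hpos j)
  set z := s⁻¹ • (Aᵀ *ᵥ u k) with hz
  set z' := s'⁻¹ • (Aᵀ *ᵥ u j) with hz'
  have zz : z ⬝ᵥ z = 1 := by
    rw [hz, smul_dotProduct, dotProduct_smul, hw, if_pos rfl, ← e1]; simp; field_simp
  have zz' : z' ⬝ᵥ z' = 1 := by
    rw [hz', smul_dotProduct, dotProduct_smul, hw, if_pos rfl, ← e2]; simp; field_simp
  have z1 : z ⬝ᵥ z' = 0 := by
    rw [hz, hz', smul_dotProduct, dotProduct_smul, hw, if_neg hjk.symm]; simp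
  have z2 : z' ⬝ᵥ z = 0 := by rw [dotProduct_comm, z1]
  have gz : gram A z = hA.eigenvalues k • z := by
    rw [gram_eq, hz, mulVec_smul, hu, mulVec_smul, mulVec_smul, smul_comm]
  have gz' : gram A z' = hA.eigenvalues j • z' := by
    rw [gram_eq, hz', mulVec_smul, hu, mulVec_smul, mulVec_smul, smul_comm]
  have ai : A i ⬝ᵥ z = s * u k i := by
    have : A i ⬝ᵥ z = (A *ᵥ z) i := rfl
    rw [this, hz, mulVec_smul, hu, ← e1]; simp; field_simp
  set p := A i ⬝ᵥ z with hp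
  set p' := A i ⬝ᵥ z' with hp'
  have hp2 : hA.eigenvalues k ≤ m * p ^ 2 := by
    rw [ai, mul_pow, e1]; nlinarith
  have hp0 : 0 < p ^ 2 := by
    by_contra h
    have : p ^ 2 = 0 := le_antisymm (not_lt.1 h) (sq_nonneg p)
    rw [this] at hp2; linarith
  set r := √(p ^ 2 + p' ^ 2) with hr
  have hr0 : 0 < r := Real.sqrt_pos.2 (by positivity)
  have hr2 : r ^ 2 = p ^ 2 + p' ^ 2 := Real.sq_sqrt (by positivity)
  refine ⟨q, hA.eigenvalues k, z, (p' / r) • z - (p / r) • z', ⟨hq.le, ?_⟩, zz, ?_, gz, hp2, ?_, ?_⟩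
  · have : hA.eigenvalues k = ∑ a, (A a ⬝ᵥ z) ^ 2 := by
      have := congrArg (fun v => v ⬝ᵥ z) gz
      simp only [smul_dotProduct, zz, smul_eq_mul, mul_one, gram, sum_dotProduct] at this
      rw [← this]; simp only [sq]
    rw [this]
    refine Finset.sum_le_sum fun a _ => ?_
    have := cs (A a) z
    rw [zz, mul_one] at this
    simpa only [dotProduct, ← sq] using this
  · simp only [sub_dotProduct, dotProduct_sub, smul_dotProduct, dotProduct_smul, zz, zz', z1, z2,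
      smul_eq_mul]
    field_simp
    linarith
  · simp only [dotProduct_sub, dotProduct_smul, smul_eq_mul, ← hp, ← hp']
    ring
  · have : gram A ((p' / r) • z - (p / r) • z') - hA.eigenvalues k • ((p' / r) • z - (p / r) • z') =
        (-(p / r) * (hA.eigenvalues j - hA.eigenvalues k)) • z' := by
      have lin : ∀ (a b : ℝ) (v w : Fin n → ℝ),
          gram A (a • v - b • w) = a • gram A v - b • gram A w := by
        intro a b v w
        simp only [gram_eq, mulVec_sub, mulVec_smul]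
      rw [lin, gz, gz']
      module
    rw [this, smul_dotProduct, dotProduct_smul, zz', ← e1, ← e2]
    simp only [smul_eq_mul, mul_one]
    have a1 : (p / r) ^ 2 ≤ 1 := by
      rw [div_pow, div_le_one (by positivity), hr2]; nlinarith [sq_nonneg p']
    have a2 : s / x ≤ s := div_le_self hs0.le hx.le
    have a3 : s' ^ 2 - s ^ 2 ≤ 3 / x * s ^ 2 := by
      have : s' ^ 2 - s ^ 2 = (s' - s) * (s' + s) := by ring
      rw [this]
      calc (s' - s) * (s' + s) ≤ (s / x) * (3 * s) :=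
            mul_le_mul h2 (by linarith) (by positivity) (by positivity)
        _ = 3 / x * s ^ 2 := by ring
    have a4 : 0 ≤ s' ^ 2 - s ^ 2 := by nlinarith
    have a5 : (s' ^ 2 - s ^ 2) ^ 2 ≤ (3 / x * s ^ 2) ^ 2 := pow_le_pow_left₀ a4 a3 2
    have a6 := mul_le_mul a1 a5 (sq_nonneg _) zero_le_one
    nlinarith

lemma slice (hmn : m ≤ n) (A : Fin m → Fin n → ℝ) (i : Fin m) :
    ∃ y : Option (Fin n) → Fin n → ℝ, (∀ l, y l ⬝ᵥ y l = 1) ∧ ∀ (a : Fin n → ℝ) (η R δ : ℝ),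
      0 < η → (QQ i (Function.update A i a) ∨ PP i η R δ (Function.update A i a)) →
      ∃ l, (y l ⬝ᵥ a) ^ 2 ≤ δ ^ 2 * (|R| * m) := by
  let N : Matrix (Fin n) (Fin n) ℝ := Matrix.of fun p q => ∑ k ∈ univ.erase i, A k p * A k q
  obtain ⟨U, μ, h1, h2, h3⟩ := Pool.Agent.H.MP_b029fa_co.diag N (fun p q => by
    simp only [N, Matrix.of_apply, mul_comm])
  have hg : ∀ a z, gram (Function.update A i a) z = N *ᵥ z + (a ⬝ᵥ z) • a := by
    intro a z
    rw [gram, ← Finset.add_sum_erase _ _ (Finset.mem_univ i), Function.update_self, add_comm]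
    congr 1
    funext p
    simp only [Finset.sum_apply, Pi.smul_apply, smul_eq_mul, N, Matrix.mulVec, dotProduct,
      Matrix.of_apply, Finset.sum_mul]
    rw [Finset.sum_comm]
    refine Finset.sum_congr rfl fun q _ => Finset.sum_congr rfl fun k hk => ?_
    rw [Function.update_of_ne (Finset.ne_of_mem_erase hk)]; ring
  obtain ⟨w, hw0, hw⟩ : ∃ w : Fin n → ℝ, w ≠ 0 ∧ ∀ k, k ≠ i → A k ⬝ᵥ w = 0 := by
    let f : (Fin n → ℝ) →ₗ[ℝ] ({k : Fin m // k ≠ i} → ℝ) :=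
      Matrix.mulVecLin (Matrix.of fun (k : {k : Fin m // k ≠ i}) p => A k p)
    have : LinearMap.ker f ≠ ⊥ := by
      apply LinearMap.ker_ne_bot_of_finrank_lt
      have := i.pos
      simp
      omega
    obtain ⟨w, hw, hw0⟩ := (Submodule.ne_bot_iff _).1 this
    exact ⟨w, hw0, fun k hk => congrFun (LinearMap.mem_ker.1 hw) ⟨k, hk⟩⟩
  have hww : 0 < w ⬝ᵥ w := lt_of_le_of_ne (Finset.sum_nonneg fun _ _ => mul_self_nonneg _)
    (fun h => hw0 (dotProduct_self_eq_zero.1 h.symm))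
  have hU : ∀ l, (Uᵀ l) ⬝ᵥ (Uᵀ l) = 1 := fun l => by
    have := congrFun (congrFun h2 l) l
    simpa [Matrix.mul_apply, dotProduct] using this
  have hUN : ∀ z, Uᵀ *ᵥ (N *ᵥ z) = diagonal μ *ᵥ (Uᵀ *ᵥ z) := by
    intro z
    rw [mulVec_mulVec, mulVec_mulVec, h3, ← Matrix.mul_assoc, ← Matrix.mul_assoc, h2,
      Matrix.one_mul]
  have hiso : ∀ z, (Uᵀ *ᵥ z) ⬝ᵥ (Uᵀ *ᵥ z) = z ⬝ᵥ z := by
    intro z
    rw [dotProduct_mulVec, vecMul_transpose, mulVec_mulVec, h1, one_mulVec]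
  refine ⟨fun l => l.elim ((√(w ⬝ᵥ w))⁻¹ • w) (fun l => Uᵀ l), ?_, ?_⟩
  · rintro (_ | l)
    · simp only [Option.elim, smul_dotProduct, dotProduct_smul, smul_eq_mul]
      have := Real.sqrt_pos.2 hww
      field_simp
      rw [Real.sq_sqrt hww.le]
    · exact hU l
  · rintro a η R δ hη (⟨c, -, hc, hci⟩ | ⟨l, z, t, ⟨l1, l2⟩, zz, tt, gz, az, at', gt⟩)
    · refine ⟨none, ?_⟩
      have h := congrArg (fun v => v ⬝ᵥ w) hc
      simp only [sum_dotProduct, smul_dotProduct, zero_dotProduct, smul_eq_mul] at h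
      rw [Finset.sum_eq_single i (fun k _ hk => by
        rw [Function.update_of_ne hk, hw k hk, mul_zero]) (by simp), Function.update_self] at h
      have hc0 : c i ≠ 0 := by rintro h0; rw [h0] at hci; norm_num at hci
      have : w ⬝ᵥ a = 0 := by rw [dotProduct_comm]; exact (mul_eq_zero.1 h).resolve_left hc0
      simp only [Option.elim, smul_dotProduct, this, smul_zero]
      have : (0 : ℝ) ^ 2 = 0 := by norm_num
      rw [this]; positivity
    · rw [Function.update_self] at az at'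
      rw [hg, at', zero_smul, add_zero, ← hiso, mulVec_sub, hUN, mulVec_smul] at gt
      rw [hg] at gz
      have hl : 0 < l := lt_of_lt_of_le hη l1
      obtain ⟨p, hp⟩ : ∃ p, (μ p - l) ^ 2 ≤ δ ^ 2 * l ^ 2 := by
        by_contra hc
        push Not at hc
        rw [← hiso] at tt
        obtain ⟨p, hp⟩ := big_coord _ tt
        have hp0 : 0 < (Uᵀ *ᵥ t) p ^ 2 := by
          by_contra h
          have : (Uᵀ *ᵥ t) p ^ 2 = 0 := le_antisymm (not_lt.1 h) (sq_nonneg _)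
          rw [this] at hp; linarith
        have := Finset.sum_lt_sum (s := univ)
          (f := fun q => δ ^ 2 * l ^ 2 * (Uᵀ *ᵥ t) q ^ 2) (g := fun q => (μ q - l) ^ 2 * (Uᵀ *ᵥ t) q ^ 2)
          (fun q _ => mul_le_mul_of_nonneg_right (hc q).le (sq_nonneg _))
          ⟨p, Finset.mem_univ p, mul_lt_mul_of_pos_right (hc p) hp0⟩
        rw [← Finset.mul_sum] at this
        simp only [dotProduct, ← sq] at tt
        rw [tt, mul_one] at this
        refine absurd gt (not_le.2 (lt_of_lt_of_eq this ?_))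
        simp only [dotProduct, Pi.sub_apply, mulVec_diagonal, Pi.smul_apply, smul_eq_mul]
        exact Finset.sum_congr rfl fun q _ => by ring
      refine ⟨some p, ?_⟩
      have h := congrFun (congrArg (fun v => Uᵀ *ᵥ v) gz) p
      simp only [mulVec_add, hUN, mulVec_smul, Pi.add_apply, mulVec_diagonal, Pi.smul_apply,
        smul_eq_mul] at h
      have c1 : (Uᵀ *ᵥ z) p ^ 2 ≤ 1 := by
        have := cs (Uᵀ p) z
        rwa [hU, zz, mul_one] at this
      change (Uᵀ *ᵥ a) p ^ 2 ≤ _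
      have c2 : (a ⬝ᵥ z) ^ 2 * (Uᵀ *ᵥ a) p ^ 2 = (μ p - l) ^ 2 * (Uᵀ *ᵥ z) p ^ 2 := by
        have : a ⬝ᵥ z * (Uᵀ *ᵥ a) p = -((μ p - l) * (Uᵀ *ᵥ z) p) := by linarith
        rw [← mul_pow, this]; ring
      have c3 : (a ⬝ᵥ z) ^ 2 * (Uᵀ *ᵥ a) p ^ 2 ≤ δ ^ 2 * l ^ 2 := by
        rw [c2]
        have := mul_le_mul hp c1 (sq_nonneg _) (by positivity)
        linarith
      have c4 : l * (Uᵀ *ᵥ a) p ^ 2 ≤ l * (δ ^ 2 * (l * m)) := by
        have d1 := mul_le_mul_of_nonneg_right az (sq_nonneg ((Uᵀ *ᵥ a) p))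
        have d2 := mul_le_mul_of_nonneg_left c3 (Nat.cast_nonneg (α := ℝ) m)
        nlinarith
      refine (le_of_mul_le_mul_left c4 hl).trans ?_
      have : l ≤ |R| := l2.trans (le_abs_self R)
      gcongr

lemma sph_compact (k : ℕ) : IsCompact {z : Fin k → ℝ | z ⬝ᵥ z = 1} := by
  refine (isCompact_closedBall (0 : Fin k → ℝ) 1).of_isClosed_subset ?_ ?_
  · exact isClosed_eq (by unfold dotProduct; fun_prop) continuous_const
  · intro z hz
    rw [mem_closedBall_zero_iff, pi_norm_le_iff_of_nonneg zero_le_one]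
    intro i
    have h : z ⬝ᵥ z = 1 := hz
    have := Finset.single_le_sum (f := fun i => z i * z i) (fun j _ => mul_self_nonneg (z j))
      (Finset.mem_univ i)
    unfold dotProduct at h
    rw [h] at this
    rw [Real.norm_eq_abs, ← sq_le_one_iff_abs_le_one, sq]
    exact this

lemma closed_proj {X Y : Type*} [TopologicalSpace X] [TopologicalSpace Y] {K : Set Y}
    (hK : IsCompact K) {C : Set (X × Y)} (hC : IsClosed C) :
    IsClosed {x | ∃ y, y ∈ K ∧ (x, y) ∈ C} := by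
  have : CompactSpace K := isCompact_iff_compactSpace.1 hK
  have h := isClosedMap_fst_of_compactSpace (X := X) (Y := K) _
    (hC.preimage (f := fun p : X × K => (p.1, p.2.1)) (by fun_prop))
  have e : {x | ∃ y, y ∈ K ∧ (x, y) ∈ C} =
      Prod.fst '' ((fun p : X × K => (p.1, p.2.1)) ⁻¹' C) := by
    ext x; simp
  rwa [e]

lemma QQ_closed (i : Fin m) : IsClosed {A : Fin m → Fin n → ℝ | QQ i A} := by
  refine closed_proj (sph_compact m)
    (C := {p : (Fin m → Fin n → ℝ) × (Fin m → ℝ) | ∑ k, p.2 k • p.1 k = 0 ∧ 1 ≤ m * p.2 i ^ 2}) ?_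
  refine IsClosed.and (isClosed_eq ?_ ?_) (isClosed_le ?_ ?_) <;> fun_prop

lemma PP_closed (i : Fin m) (η R δ : ℝ) : IsClosed {A : Fin m → Fin n → ℝ | PP i η R δ A} := by
  have h := closed_proj ((isCompact_Icc (a := η) (b := R)).prod
    ((sph_compact n).prod (sph_compact n)))
    (C := {p : (Fin m → Fin n → ℝ) × (ℝ × (Fin n → ℝ) × (Fin n → ℝ)) |
      gram p.1 p.2.2.1 = p.2.1 • p.2.2.1 ∧ p.2.1 ≤ m * (p.1 i ⬝ᵥ p.2.2.1) ^ 2 ∧
      p.1 i ⬝ᵥ p.2.2.2 = 0 ∧ (gram p.1 p.2.2.2 - p.2.1 • p.2.2.2) ⬝ᵥ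
        (gram p.1 p.2.2.2 - p.2.1 • p.2.2.2) ≤ δ ^ 2 * p.2.1 ^ 2}) (by
      refine IsClosed.and (isClosed_eq ?_ ?_) (IsClosed.and (isClosed_le ?_ ?_)
        (IsClosed.and (isClosed_eq ?_ ?_) (isClosed_le ?_ ?_)))
      all_goals (try unfold gram)
      all_goals fun_prop)
  refine Eq.mpr (congrArg IsClosed ?_) h
  ext A
  simp only [PP, Set.mem_ofPred_eq, Set.mem_prod, Set.mem_Icc, Prod.exists, and_assoc]

end Pool.Agent.H.MP_429aeb_pr
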