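import Pool.Agent.H.MP_429aeb_pr.A

set_option autoImplicit false

namespace Pool.Agent.H.MP_429aeb_pr

open Matrix Finset MeasureTheory ProbabilityTheory
open scoped NNReal ENNReal

lemma pi_slice {ι X : Type} [Fintype ι] [DecidableEq ι] [MeasurableSpace X] (ν : Measure X)
    [IsProbabilityMeasure ν] (i : ι) (T : Set (ι → X)) (hT : MeasurableSet T) (c : ℝ≥0∞)
    (h : ∀ x : ι → X, ν {s | Function.update x i s ∈ T} ≤ c) :
    Measure.pi (fun _ : ι => ν) T ≤ c := by
  have h1 := lintegral_le_of_lmarginal_le (μ := fun _ : ι => ν) {i}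
    (f := T.indicator 1) (g := fun _ => c) (measurable_one.indicator hT) measurable_const (by
      rw [lmarginal_singleton, lmarginal_singleton]
      intro x
      simp only [lintegral_const, measure_univ, mul_one]
      refine le_trans (le_of_eq ?_) (h x)
      have hm : MeasurableSet {s | Function.update x i s ∈ T} := hT.preimage (measurable_update x)
      rw [← lintegral_indicator_one hm]
      rfl)
  rw [lintegral_indicator_one hT] at h1
  simpa using h1

lemma gauss_Icc (σ : ℝ≥0) (hσ : 0 < σ) (a b : ℝ) :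
    gaussianReal 0 (σ ^ 2) (Set.Icc a b) ≤ ENNReal.ofReal ((b - a) / (2 * σ)) := by
  have hσ' : (0 : ℝ) < σ := hσ
  rw [gaussianReal_apply _ (by positivity)]
  have hb : ∀ x, gaussianPDF 0 (σ ^ 2) x ≤ ENNReal.ofReal (1 / (2 * σ)) := by
    intro x
    refine ENNReal.ofReal_le_ofReal ?_
    unfold gaussianPDFReal
    have e1 : Real.exp (-(x - 0) ^ 2 / (2 * ((σ ^ 2 : ℝ≥0) : ℝ))) ≤ 1 := by
      rw [Real.exp_le_one_iff]
      exact div_nonpos_of_nonpos_of_nonneg (by nlinarith [sq_nonneg (x - 0)]) (by positivity)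
    have e2 : 2 * (σ : ℝ) ≤ √(2 * Real.pi * ((σ ^ 2 : ℝ≥0) : ℝ)) := by
      apply Real.le_sqrt_of_sq_le
      push_cast
      nlinarith [Real.pi_gt_three, sq_nonneg (σ : ℝ)]
    have e3 : (√(2 * Real.pi * ((σ ^ 2 : ℝ≥0) : ℝ)))⁻¹ ≤ 1 / (2 * σ) := by
      rw [one_div]; exact inv_anti₀ (by positivity) e2
    have := mul_le_mul e3 e1 (by positivity) (by positivity)
    rwa [mul_one] at this
  refine (lintegral_mono hb).trans ?_
  rw [setLIntegral_const, Real.volume_Icc, ← ENNReal.ofReal_mul (by positivity)]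
  exact le_of_eq (by congr 1; ring)

lemma strip {n : ℕ} (σ : ℝ≥0) (hσ : 0 < σ) (y b : Fin n → ℝ) (hy : y ⬝ᵥ y = 1) (ε : ℝ)
    (hε : 0 ≤ ε) :
    Measure.pi (fun _ : Fin n => gaussianReal 0 (σ ^ 2)) {g | (y ⬝ᵥ (b + g)) ^ 2 ≤ ε ^ 2} ≤
      ENNReal.ofReal (ε * n / σ) := by
  have hσ' : (0 : ℝ) < σ := hσ
  obtain ⟨p, hp⟩ := big_coord y hy
  have hn : (1 : ℝ) ≤ n := by exact_mod_cast p.pos
  refine pi_slice _ p _ (IsClosed.measurableSet (isClosed_le (by fun_prop) (by fun_prop))) _ ?_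
  intro x
  have hp0 : y p ≠ 0 := by rintro h; rw [h] at hp; norm_num at hp
  set c := (y ⬝ᵥ (b + x) - y p * x p) / y p with hc
  have hs : {s | Function.update x p s ∈ {g : Fin n → ℝ | (y ⬝ᵥ (b + g)) ^ 2 ≤ ε ^ 2}} ⊆
      Set.Icc (-c - ε * n) (-c + ε * n) := by
    intro s hs
    have e : y ⬝ᵥ (b + Function.update x p s) = y p * (s + c) := by
      have : Function.update x p s = x + Pi.single p (s - x p) := by
        funext q; by_cases h : q = p
        · subst h; simp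
        · simp [h]
      rw [this, ← add_assoc, dotProduct_add, dotProduct_single, hc]; field_simp; ring
    simp only [Set.mem_ofPred_eq, e, mul_pow] at hs
    have h1 : (s + c) ^ 2 ≤ (ε * n) ^ 2 := by
      have a := mul_le_mul_of_nonneg_right hp (sq_nonneg (s + c))
      have b := mul_le_mul_of_nonneg_left hs (Nat.cast_nonneg (α := ℝ) n)
      have d : (n : ℝ) * ε ^ 2 ≤ (ε * n) ^ 2 := by nlinarith [sq_nonneg ε, mul_nonneg (sq_nonneg ε) (Nat.cast_nonneg (α := ℝ) n)]
      nlinarith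
    have := abs_le.1 (abs_le_of_sq_le_sq' h1 (by positivity) |> fun h => abs_le.2 h)
    constructor <;> linarith [this.1, this.2]
  refine (measure_mono hs).trans ((gauss_Icc σ hσ _ _).trans (le_of_eq ?_))
  congr 1; field_simp; ring

lemma tail (σ : ℝ≥0) (hσ : σ ≤ 1) (r : ℝ) (hr : 0 < r) :
    gaussianReal 0 (σ ^ 2) {s | r ≤ |s|} ≤ ENNReal.ofReal (1 / r ^ 2) := by
  have := meas_ge_le_variance_div_sq (μ := gaussianReal 0 (σ ^ 2)) (X := id)
    (memLp_id_gaussianReal 2) hr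
  simp only [id, integral_id_gaussianReal, sub_zero, variance_id_gaussianReal] at this
  refine this.trans (ENNReal.ofReal_le_ofReal ?_)
  have : ((σ ^ 2 : ℝ≥0) : ℝ) ≤ 1 := by
    have : (σ : ℝ) ≤ 1 := hσ
    push_cast; nlinarith [σ.2]
  gcongr

theorem bound {m n : ℕ} (hmn : m ≤ n) (B : Fin m → Fin n → ℝ) (hB : ∑ i, ∑ j, B i j ^ 2 ≤ 1)
    (σ : ℝ≥0) (hσ : 0 < σ) (hσ1 : σ ≤ 1) (x : ℝ) (hx : 1 < x) :
    Measure.pi (fun _ : Fin m => Measure.pi (fun _ : Fin n => gaussianReal 0 (σ ^ 2)))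
      {G | ∃ i, QQ i (B + G) ∨
        ∃ q : ℕ, PP i (1 / ((q : ℝ) + 1)) (∑ a, ∑ b, (B + G) a b ^ 2) (3 / x) (B + G)} ≤
      ENNReal.ofReal (13 * (n : ℝ) ^ 5 * (√x)⁻¹ * (σ : ℝ)⁻¹) := by
  have hσ' : (0 : ℝ) < σ := hσ
  have hσ1' : (σ : ℝ) ≤ 1 := hσ1
  rcases Nat.eq_zero_or_pos m with rfl | hm
  · simp
  have hn : (1 : ℝ) ≤ n := by exact_mod_cast (show 1 ≤ n by omega)
  have hmn' : (m : ℝ) ≤ n := by exact_mod_cast hmn
  set r := √x with hr
  have hr1 : 1 ≤ r := Real.one_le_sqrt.2 hx.le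
  have hr2 : r ^ 2 = x := Real.sq_sqrt (by linarith)
  set R : ℝ := 4 * n ^ 2 * x with hR
  set ε : ℝ := 6 * n ^ 2 / r with hε
  let T : Fin m → Set (Fin m → Fin n → ℝ) := fun i =>
    {G | QQ i (B + G) ∨ ∃ q : ℕ, PP i (1 / ((q : ℝ) + 1)) R (3 / x) (B + G)}
  let S : Fin m × Fin n → Set (Fin m → Fin n → ℝ) := fun p => {G | r ≤ |G p.1 p.2|}
  have hsub : {G | ∃ i, QQ i (B + G) ∨
        ∃ q : ℕ, PP i (1 / ((q : ℝ) + 1)) (∑ a, ∑ b, (B + G) a b ^ 2) (3 / x) (B + G)} ⊆
      (⋃ p, S p) ∪ ⋃ i, T i := by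
    rintro G ⟨i, hi⟩
    by_cases hG : G ∈ ⋃ p, S p
    · exact Or.inl hG
    right
    simp only [Set.mem_iUnion, not_exists, S, Set.mem_ofPred_eq, not_le, Prod.forall] at hG
    refine Set.mem_iUnion.2 ⟨i, hi.imp id ?_⟩
    rintro ⟨q, l, z, t, ⟨l1, l2⟩, h⟩
    refine ⟨q, l, z, t, ⟨l1, l2.trans ?_⟩, h⟩
    have e : ∀ a b, (B + G) a b ^ 2 ≤ 4 * x := by
      intro a b
      have b1 : B a b ^ 2 ≤ 1 := by
        refine le_trans ?_ hB
        refine le_trans ?_ (Finset.single_le_sum (f := fun i => ∑ j, B i j ^ 2)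
          (fun i _ => Finset.sum_nonneg fun j _ => sq_nonneg _) (Finset.mem_univ a))
        exact Finset.single_le_sum (f := fun j => B a j ^ 2) (fun j _ => sq_nonneg _)
          (Finset.mem_univ b)
      have b2 : G a b ^ 2 ≤ x := by
        rw [← hr2, ← sq_abs]; exact pow_le_pow_left₀ (abs_nonneg _) (hG a b).le 2
      simp only [Pi.add_apply]
      nlinarith [sq_nonneg (B a b - G a b)]
    refine (Finset.sum_le_sum fun a _ => Finset.sum_le_sum fun b _ => e a b).trans ?_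
    simp only [Finset.sum_const, Finset.card_univ, Fintype.card_fin, nsmul_eq_mul, hR]
    have : 0 ≤ (n : ℝ) * (4 * x) := by positivity
    nlinarith
  have hS : ∀ p, Measure.pi (fun _ : Fin m => Measure.pi (fun _ : Fin n => gaussianReal 0 (σ ^ 2)))
      (S p) ≤ ENNReal.ofReal (1 / r ^ 2) := by
    intro p
    refine pi_slice _ p.1 _ (IsClosed.measurableSet (isClosed_le (by fun_prop) (by fun_prop))) _ ?_
    intro G
    simp only [S, Set.mem_ofPred_eq, Function.update_self]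
    refine pi_slice _ p.2 _ (IsClosed.measurableSet (isClosed_le (by fun_prop) (by fun_prop))) _ ?_
    intro g
    simp only [Set.mem_ofPred_eq, Function.update_self]
    exact tail σ hσ1 r (by linarith)
  have hT : ∀ i, Measure.pi (fun _ : Fin m => Measure.pi (fun _ : Fin n => gaussianReal 0 (σ ^ 2)))
      (T i) ≤ ENNReal.ofReal ((n + 1) * (ε * n / σ)) := by
    intro i
    have hc : Continuous fun G : Fin m → Fin n → ℝ => B + G := by fun_prop
    have hm : MeasurableSet (T i) := by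
      have e : T i = (fun G => B + G) ⁻¹' {A | QQ i A} ∪
          ⋃ q : ℕ, (fun G => B + G) ⁻¹' {A | PP i (1 / ((q : ℝ) + 1)) R (3 / x) A} := by
        ext G; simp [T]
      rw [e]
      exact ((QQ_closed i).preimage hc).measurableSet.union
        (MeasurableSet.iUnion fun q => ((PP_closed i _ _ _).preimage hc).measurableSet)
    refine pi_slice _ i _ hm _ fun G => ?_
    obtain ⟨y, hy1, hy2⟩ := slice hmn (B + G) i
    have hs : {g | Function.update G i g ∈ T i} ⊆ ⋃ l, {g | (y l ⬝ᵥ (B i + g)) ^ 2 ≤ ε ^ 2} := by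
      intro g hg
      have e : B + Function.update G i g = Function.update (B + G) i (B i + g) := by
        funext k; by_cases h : k = i
        · subst h; simp
        · simp [h]
      simp only [T, Set.mem_ofPred_eq, e] at hg
      have : ∃ l, (y l ⬝ᵥ (B i + g)) ^ 2 ≤ (3 / x) ^ 2 * (|R| * m) := by
        rcases hg with hg | ⟨q, hg⟩
        · exact hy2 _ 1 R _ one_pos (Or.inl hg)
        · exact hy2 _ _ R _ (by positivity) (Or.inr hg)
      obtain ⟨l, hl⟩ := this
      refine Set.mem_iUnion.2 ⟨l, hl.trans ?_⟩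
      have hx0 : 0 < x := by linarith
      rw [abs_of_nonneg (by positivity), hε, div_pow, div_pow, hr2, hR]
      have : (3 : ℝ) ^ 2 / x ^ 2 * (4 * n ^ 2 * x * m) = 36 * n ^ 2 * m / x := by field_simp; ring
      rw [this]
      refine div_le_div_of_nonneg_right ?_ hx0.le
      have : (m : ℝ) ≤ n ^ 2 := by nlinarith
      nlinarith [sq_nonneg (n : ℝ)]
    refine (measure_mono hs).trans ((measure_iUnion_fintype_le _ _).trans ?_)
    refine (Finset.sum_le_sum fun l _ => strip σ hσ (y l) (B i) (hy1 l) ε (by positivity)).trans ?_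
    rw [← ENNReal.ofReal_sum_of_nonneg (fun _ _ => by positivity)]
    simp
  refine (measure_mono hsub).trans ((measure_union_le _ _).trans ?_)
  refine (add_le_add ((measure_iUnion_fintype_le _ _).trans (Finset.sum_le_sum fun p _ => hS p))
    ((measure_iUnion_fintype_le _ _).trans (Finset.sum_le_sum fun i _ => hT i))).trans ?_
  rw [← ENNReal.ofReal_sum_of_nonneg (fun _ _ => by positivity),
    ← ENNReal.ofReal_sum_of_nonneg (fun _ _ => by positivity),
    ← ENNReal.ofReal_add (by positivity) (by positivity)]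
  refine ENNReal.ofReal_le_ofReal ?_
  simp only [Finset.sum_const, Finset.card_univ, Fintype.card_prod, Fintype.card_fin, nsmul_eq_mul,
    Nat.cast_mul, hε]
  have hr0 : 0 < r := by linarith
  have a1 : (m : ℝ) * n * (1 / r ^ 2) ≤ n ^ 5 * r⁻¹ * (σ : ℝ)⁻¹ := by
    have b1 : (m : ℝ) * n ≤ n ^ 5 := by
      calc (m : ℝ) * n ≤ n ^ 2 := by nlinarith
        _ ≤ n ^ 5 := pow_le_pow_right₀ hn (by norm_num)
    have b2 : 1 / r ^ 2 ≤ r⁻¹ * (σ : ℝ)⁻¹ := by
      rw [← mul_inv, one_div]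
      exact inv_anti₀ (by positivity) (by nlinarith)
    rw [mul_assoc ((n : ℝ) ^ 5)]
    exact mul_le_mul b1 b2 (by positivity) (by positivity)
  have a2 : (m : ℝ) * ((n + 1) * (6 * n ^ 2 / r * n / σ)) ≤ 12 * (n ^ 5 * r⁻¹ * (σ : ℝ)⁻¹) := by
    have b1 : (m : ℝ) * (n + 1) ≤ 2 * n ^ 2 := by nlinarith
    have : (m : ℝ) * ((n + 1) * (6 * n ^ 2 / r * n / σ)) =
        (m * (n + 1)) * (6 * n ^ 3 * r⁻¹ * (σ : ℝ)⁻¹) := by field_simp
    rw [this]
    refine (mul_le_mul_of_nonneg_right b1 (by positivity)).trans (le_of_eq (by ring))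
  linarith

end Pool.Agent.H.MP_429aeb_pr
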